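import Mathlib
import Pool.Agent.H60R3.RsDefs
import Pool.Agent.H60R3.SymBlock

/-!
# A non-discrete separable metrizable group whose topology is generated by one sequence

Let `Sym(ℕ)` be the group of all the permutations of `ℕ` with the topology of pointwise
convergence, a separable, completely metrizable, non-discrete group. Let `v_j` be the involution
which swaps `4 i` and `4 i + 1` for all `i ≥ j`. Every group topology on `Sym(ℕ)` in which `v_j`
converges to the identity is coarser than the topology of pointwise convergence. So this topology
is `τ_S` for a set `S` with one element.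

Sketch. Let `W` be a neighbourhood of the identity in a group topology `σ` with `v_j → 1`, and `V`
one whose twelfth power is in `W`. All the conjugates of `(v_j)` converge to `1`, so for every
involution `T` with infinitely many pairs and infinitely many fixed points the tails of `T` are
in `V`. Gluing together involutions with finite supports in disjoint intervals, one sees that `V ^ 2`
contains all the involutions with finite support which fix `0, …, n - 1`, for some `n`. So `V ^ 6`
contains all the involutions which fix `0, …, n - 1`; and every permutation which fixes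
`0, …, n - 1` is a product of two such involutions.
-/

set_option linter.style.haveILetI false
set_option warn.classDefReducibility false

namespace Pool.Agent.Results.MP_412c32_gt.SymGroupOneSequence

open Filter Pool.Agent.H60R3

/-- The topology of pointwise convergence on the group of all the permutations of `ℕ`. -/
def pointwiseTopology : TopologicalSpace (Equiv.Perm ℕ) :=
  TopologicalSpace.induced (fun (g : Equiv.Perm ℕ) (n : ℕ) => g n) Pi.topologicalSpace

theorem continuous_eval (n : ℕ) :
    @Continuous _ _ pointwiseTopology _ (fun g : Equiv.Perm ℕ => g n) :=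
  letI := pointwiseTopology
  (continuous_apply n).comp (continuous_induced_dom (f := fun (g : Equiv.Perm ℕ) (n : ℕ) => g n))

theorem eventually_eval (g : Equiv.Perm ℕ) (n : ℕ) :
    ∀ᶠ h in @nhds _ pointwiseTopology g, h n = g n := by
  letI := pointwiseTopology
  have h1 := (continuous_eval n).tendsto g
  rw [nhds_discrete ℕ, tendsto_pure] at h1
  exact h1

theorem isTopologicalGroup : @IsTopologicalGroup (Equiv.Perm ℕ) pointwiseTopology _ := by
  letI := pointwiseTopology
  refine @IsTopologicalGroup.mk _ _ _ (ContinuousMul.mk ?_) (ContinuousInv.mk ?_)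
  · refine continuous_induced_rng.2 (continuous_pi fun n => continuous_iff_continuousAt.2 ?_)
    rintro ⟨g, h⟩
    rw [ContinuousAt, nhds_discrete ℕ, tendsto_pure, nhds_prod_eq]
    have h1 : ∀ᶠ p : Equiv.Perm ℕ × Equiv.Perm ℕ in nhds g ×ˢ nhds h, p.1 (h n) = g (h n) :=
      Filter.Eventually.prod_inl (eventually_eval g (h n)) _
    have h2 : ∀ᶠ p : Equiv.Perm ℕ × Equiv.Perm ℕ in nhds g ×ˢ nhds h, p.2 n = h n :=
      Filter.Eventually.prod_inr (eventually_eval h n) _
    filter_upwards [h1, h2] with p h3 h4
    simp [Equiv.Perm.mul_apply, h3, h4]
  · refine continuous_induced_rng.2 (continuous_pi fun n => continuous_iff_continuousAt.2 ?_)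
    intro g
    rw [ContinuousAt, nhds_discrete ℕ, tendsto_pure]
    filter_upwards [eventually_eval g (g⁻¹ n)] with h h1
    simp only [Function.comp]
    rw [Equiv.Perm.inv_eq_iff_eq, h1]
    exact (g.apply_symm_apply n).symm

theorem isEmbedding : @Topology.IsEmbedding _ _ pointwiseTopology _
    (fun (g : Equiv.Perm ℕ) (n : ℕ) => g n) :=
  letI := pointwiseTopology
  ⟨⟨rfl⟩, fun _ _ hgh => Equiv.ext fun n => congrFun hgh n⟩

theorem metrizable : @TopologicalSpace.MetrizableSpace _ pointwiseTopology :=
  letI := pointwiseTopology
  isEmbedding.metrizableSpace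

theorem separable : @TopologicalSpace.SeparableSpace _ pointwiseTopology :=
  letI := pointwiseTopology
  haveI : SecondCountableTopology (Equiv.Perm ℕ) := isEmbedding.secondCountableTopology
  inferInstance

theorem tendsto_v : Tendsto Sym.v atTop (@nhds _ pointwiseTopology 1) := by
  letI := pointwiseTopology
  rw [isEmbedding.isInducing.nhds_eq_comap, tendsto_comap_iff, tendsto_pi_nhds]
  intro n
  rw [nhds_discrete ℕ, tendsto_pure]
  filter_upwards [eventually_ge_atTop (n + 1)] with j hj
  change Sym.w j n = n
  unfold Sym.w
  rw [if_neg (by omega)]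

theorem not_discrete : ¬ @DiscreteTopology _ pointwiseTopology := by
  letI := pointwiseTopology
  intro h
  have h1 := tendsto_v
  rw [nhds_discrete, tendsto_pure] at h1
  obtain ⟨j, hj⟩ := h1.exists
  have h2 : Sym.v j (4 * j) = 4 * j + 1 := by
    change Sym.w j (4 * j) = _
    unfold Sym.w
    rw [if_pos le_rfl, if_pos (by omega)]
  rw [hj] at h2
  simp at h2

theorem generates : Generates pointwiseTopology {Sym.v} := by
  constructor
  · intro u hu
    rw [Set.mem_singleton_iff] at hu
    rw [hu]
    exact tendsto_v
  · intro σ hσ _ hS
    have hv := hS _ (Set.mem_singleton _)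
    have hp := isTopologicalGroup
    -- comparison of the neighbourhoods of `1`
    have h1 : @nhds _ pointwiseTopology 1 ≤ @nhds _ σ 1 := by
      intro W hW
      obtain ⟨n, hn⟩ := Sym.stab_mem hσ hv hW
      have h2 : ∀ᶠ h in @nhds _ pointwiseTopology (1 : Equiv.Perm ℕ),
          ∀ z ∈ Finset.range n, h z = (1 : Equiv.Perm ℕ) z :=
        (Filter.eventually_all_finset _).2 fun z _ => eventually_eval 1 z
      filter_upwards [h2] with h h3
      exact hn h fun z hz => h3 z (Finset.mem_range.2 hz)
    rw [le_iff_nhds]
    intro g
    have h3 : @nhds _ pointwiseTopology g = map (g * ·) (@nhds _ pointwiseTopology 1) := by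
      letI := pointwiseTopology
      have := map_mul_left_nhds_one g
      exact this.symm
    have h4 : @nhds _ σ g = map (g * ·) (@nhds _ σ 1) := by
      letI := σ
      exact (map_mul_left_nhds_one g).symm
    rw [h3, h4]
    exact Filter.map_mono h1

/-- `Sym(ℕ)` with the topology of pointwise convergence is a non-discrete separable metrizable
group, and its topology is `τ_S` for a set `S` which consists of one sequence. So it is not true
that `r_s(G, τ) = 𝔠` for every non-discrete separable metrizable group `(G, τ)`. -/
theorem result :
    (@IsTopologicalGroup (Equiv.Perm ℕ) pointwiseTopology _ ∧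
      @TopologicalSpace.MetrizableSpace _ pointwiseTopology ∧
      @TopologicalSpace.SeparableSpace _ pointwiseTopology ∧
      ¬ @DiscreteTopology _ pointwiseTopology ∧
      rs pointwiseTopology = 1) ∧
    ¬ ∀ (G : Type) [Group G] [τ : TopologicalSpace G] [IsTopologicalGroup G]
      [TopologicalSpace.MetrizableSpace G] [TopologicalSpace.SeparableSpace G],
      ¬ DiscreteTopology G → rs τ = Cardinal.continuum := by
  have hrs : rs pointwiseTopology = 1 := by
    unfold rs
    apply le_antisymm
    · exact csInf_le' ⟨{Sym.v}, generates, Cardinal.mk_singleton _⟩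
    · refine le_csInf ⟨1, {Sym.v}, generates, Cardinal.mk_singleton _⟩ ?_
      rintro κ ⟨S, hS, rfl⟩
      rw [Cardinal.one_le_iff_ne_zero]
      intro h0
      rw [Cardinal.mk_eq_zero_iff] at h0
      apply not_discrete
      have h1 : pointwiseTopology ≤ ⊥ := by
        refine hS.2 ⊥ ?_ ?_ ?_
        · letI : TopologicalSpace (Equiv.Perm ℕ) := ⊥
          haveI : DiscreteTopology (Equiv.Perm ℕ) := ⟨rfl⟩
          infer_instance
        · letI : TopologicalSpace (Equiv.Perm ℕ) := ⊥
          haveI : DiscreteTopology (Equiv.Perm ℕ) := ⟨rfl⟩
          infer_instance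
        · intro u hu
          exact (h0.false ⟨u, hu⟩).elim
      exact @DiscreteTopology.mk _ pointwiseTopology (le_bot_iff.1 h1)
  refine ⟨⟨isTopologicalGroup, metrizable, separable, not_discrete, hrs⟩, fun h => ?_⟩
  letI := pointwiseTopology
  haveI := isTopologicalGroup
  haveI := metrizable
  haveI := separable
  have h1 := h (Equiv.Perm ℕ) not_discrete
  have h2 : rs pointwiseTopology = Cardinal.continuum := h1
  rw [hrs] at h2
  have h3 := Cardinal.nat_lt_continuum 1
  rw [Nat.cast_one, h2] at h3
  exact lt_irrefl _ h3

end Pool.Agent.Results.MP_412c32_gt.SymGroupOneSequence
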